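import Pool.Agent.Y7.EJ.StmO

/-! The first stage of the transfer. -/

open Set Filter Topology MeasureTheory

set_option autoImplicit false

namespace Pool.Agent.Y387.EJ

open Pool.Agent.Y5 (Y Pr Pr_deriv Pr_cont Pr_zero Pr_le_lin mono_of first_time)
open Pool.Agent.Y5.D (vf3)
open Pool.Agent.Y7.EJ

variable {lm L C ℓ M hh : ℕ → ℝ} {B : ℕ → ℕ → ℝ} {T : ℝ} {x f : ℕ → ℝ → ℝ}

lemma num0 (q : SeqP lm L C ℓ M hh B) : Real.exp (-(lm 0)) * lm 0 ≤ hh 0 ^ 2 / 10 ^ 20 := by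
  have hE := EE_lm q 0
  have hlp := slm q 0
  have hp := q.hh_pos 0
  have h9 := hh9 q 0
  have h1 := q.hh_lm 0
  have h2 : hh 0 ^ 8 ≤ hh 0 ^ 2 :=
    pow_le_pow_of_le_one hp.le (by linarith) (by norm_num)
  have h3 : EE lm 0 ^ 2 * Real.exp ((-1) * lm 0) ≤ Real.exp (0 * lm 0) :=
    EE_exp q 0 2 (by norm_num)
  rw [zero_mul, Real.exp_zero] at h3
  have h4 : (10 ^ 15 * lm 0) ^ 2 * Real.exp (-(lm 0)) ≤ 1 := by
    calc (10 ^ 15 * lm 0) ^ 2 * Real.exp (-(lm 0)) ≤ EE lm 0 ^ 2 * Real.exp (-(lm 0)) := by gcongr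
      _ = EE lm 0 ^ 2 * Real.exp ((-1) * lm 0) := by rw [neg_one_mul]
      _ ≤ 1 := h3
  have h5 : 1 ≤ lm 0 * hh 0 ^ 2 := h1.trans (by gcongr)
  have h6 : 0 < hh 0 ^ 2 := by positivity
  calc Real.exp (-(lm 0)) * lm 0 = Real.exp (-(lm 0)) * lm 0 * 1 := by ring
    _ ≤ Real.exp (-(lm 0)) * lm 0 * (lm 0 * hh 0 ^ 2) := by gcongr
    _ = ((10 ^ 15 * lm 0) ^ 2 * Real.exp (-(lm 0))) * (hh 0 ^ 2 / 10 ^ 30) := by ring
    _ ≤ 1 * (hh 0 ^ 2 / 10 ^ 30) := by gcongr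
    _ ≤ hh 0 ^ 2 / 10 ^ 20 := by linarith

lemma numC (q : SeqP lm L C ℓ M hh B) : Real.exp (-50 * lm 0) ≤ C 0 / 1000 := by
  have h1 := C_lo' q 0
  have hlm := q.lm_big 0
  have h2 : Real.exp (-50 * lm 0) ≤ Real.exp (-(158 / 100) * lm 0) * Real.exp (-1000) := by
    rw [← Real.exp_add]
    apply Real.exp_le_exp.2
    linarith
  have h3 : Real.exp (-1000) ≤ 1 / 1000 := by
    rw [Real.exp_neg, inv_le_comm₀ (Real.exp_pos _) (by norm_num)]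
    have := Real.add_one_le_exp (1000 : ℝ)
    linarith
  have h4 := Real.exp_pos (-(158 / 100) * lm 0)
  calc Real.exp (-50 * lm 0) ≤ Real.exp (-(158 / 100) * lm 0) * Real.exp (-1000) := h2
    _ ≤ C 0 * (1 / 1000) := by
        have := sCp q 0
        gcongr
    _ = _ := by ring

lemma numz (q : SeqP lm L C ℓ M hh B) :
    Real.exp (-(1 / 2) * lm 1) ≤ Real.exp (-50 * lm 0) ∧
    L 1 * eta lm 1 ^ 2 ≤ Real.exp (-50 * lm 0) ∧ ph lm 1 ≤ Real.exp (-50 * lm 0) ∧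
    eta lm 1 ^ 2 ≤ Real.exp (-(lm 0)) := by
  have h1 := slm100 q 0
  simp only [zero_add] at h1
  have hlm := slm q 0
  have hL := EE_L q (k := 1) (n := 0) (by omega)
  have e1 : eta lm 1 ^ 2 ≤ Real.exp (-280 * lm 0) := by
    rw [eta, ← Real.exp_nat_mul]
    apply Real.exp_le_exp.2
    push_cast
    linarith
  refine ⟨?_, ?_, ?_, ?_⟩
  · apply Real.exp_le_exp.2
    linarith
  · calc L 1 * eta lm 1 ^ 2 ≤ EE lm 0 ^ 1 * Real.exp (-280 * lm 0) := by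
          rw [pow_one]
          have := EE_pos (lm := lm) 0
          gcongr
      _ ≤ Real.exp (-50 * lm 0) := EE_exp q 0 1 (by norm_num)
  · rw [ph]
    apply Real.exp_le_exp.2
    linarith
  · refine e1.trans (Real.exp_le_exp.2 ?_)
    linarith

lemma Ilin (g : Gd lm L C ℓ M hh B T x f) {t : ℝ} (ht : t ∈ Ico 0 T) : Gd.I L x 0 t ≤ L 0 * t := by
  have q := g.sq
  have h2 := Pr_le_lin (g.cabs 0) (α := 0) (t := t) (c := L 0) le_rfl
    ht.2 ht.1 (fun τ hτ => by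
      have h3 := g.abs_le_one (t := τ) ⟨hτ.1.le, hτ.2.trans ht.2⟩ 0
      have := sLp q 0
      calc L 0 * |x 0 τ| ≤ L 0 * 1 := by gcongr
        _ = L 0 := mul_one _)
  rw [Pr_zero, sub_zero, sub_zero] at h2
  exact h2

/-- tails -/
lemma coreA (g : Gd lm L C ℓ M hh B T x f) {t : ℝ} (ht : t ∈ Ico 0 T)
    (h2 : L 0 * t ≤ 2 * lm 0) (h3 : Gd.I L x 1 t ≤ 5 * hh 0 * lm 1) :
    ∑ i ∈ Finset.range 2, Gd.I L x i t ≤ 1 / 10 * lm 1 ∧ Gd.I L x 0 t ≤ 2 * lm 0 ∧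
    t ≤ 2 * lm 0 ∧ √(Y x 2 t) ≤ eta lm 1 := by
  have q := g.sq
  have hL := q.L0
  have h0 := (Ilin g ht).trans h2
  have h9 := hh9 q 0
  have hp := q.hh_pos 0
  have hr := q.hh_ratio 0
  simp only [zero_add] at hr
  have hl1 := slm q 1
  have h8 : hh 0 ^ 8 ≤ hh 0 := by
    calc hh 0 ^ 8 ≤ hh 0 ^ 1 := pow_le_pow_of_le_one hp.le (by linarith) (by norm_num)
      _ = hh 0 := pow_one _
  have hs : ∑ i ∈ Finset.range 2, Gd.I L x i t ≤ 1 / 10 * lm 1 := by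
    rw [Finset.sum_range_succ, Finset.sum_range_one]
    have h4 : hh 0 ^ 8 * lm 1 ≤ 1 / 10 ^ 9 * lm 1 := by
      gcongr; exact h8.trans h9
    have h5 : hh 0 * lm 1 ≤ 1 / 10 ^ 9 * lm 1 := by gcongr
    linarith
  have htl : t ≤ 2 * lm 0 := by
    have := ht.1
    nlinarith
  refine ⟨hs, h0, htl, ?_⟩
  have hl0 := slm q 0
  exact g.TB (m := 1) ht (by linarith) hs

lemma Y2le (g : Gd lm L C ℓ M hh B T x f) {t : ℝ} (ht : t ∈ Ico 0 T)
    (h2 : L 0 * t ≤ 2 * lm 0) (h3 : Gd.I L x 1 t ≤ 5 * hh 0 * lm 1) :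
    Y x 2 t ≤ eta lm 1 ^ 2 := by
  have h := (coreA g ht h2 h3).2.2.2
  have h0 : 0 ≤ Y x 2 t := Gd.Y_nonneg 2 t
  calc Y x 2 t = √(Y x 2 t) ^ 2 := (Real.sq_sqrt h0).symm
    _ ≤ eta lm 1 ^ 2 := by gcongr

/-- the first mode -/
lemma coreB (g : Gd lm L C ℓ M hh B T x f) {t : ℝ} (ht : t ∈ Ico 0 T)
    (h1 : ∀ s ∈ Icc 0 t, √(Y x 1 s) ≤ hh 0)
    (h2 : L 0 * t ≤ 2 * lm 0) (h3 : Gd.I L x 1 t ≤ 5 * hh 0 * lm 1) :
    1 - hh 0 / 100 ≤ x 0 t := by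
  have q := g.sq
  have hL := sLp q 0
  have hL0 := q.L0
  have h9 := hh9 q 0
  have hp := q.hh_pos 0
  have hC := sCp q 0
  have hph := ph_pos lm 0
  have hl1 := slm q 1
  have hl0 := slm q 0
  have hs1 := q.lm_succ 0
  simp only [zero_add] at hs1
  set a : ℝ := ℓ 0 + C 0 * L 0 + 2 * ph lm 0 + 2 * L 0 * eta lm 1 ^ 2 with ha
  set b : ℝ := 1001 / 1000 * hh 0 / lm 1 with hb
  have hsub : ∀ τ ∈ Icc 0 t, τ ∈ Ico 0 T := fun τ hτ => ⟨hτ.1, hτ.2.trans_lt ht.2⟩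
  have hm := mono_of (f := fun τ => x 0 τ + a * τ + b * Gd.I L x 1 τ)
    (f' := fun τ => (vf3 L C ℓ B (fun m => x m τ) 0 + f 0 τ) + a + b * (L 1 * |x 1 τ|))
    (a := 0) (b := t) ht.1
    (by
      refine ContinuousOn.add (ContinuousOn.add ((g.cont 0).mono hsub) (by fun_prop)) ?_
      exact continuousOn_const.mul ((Pr_cont (g.cabs 1)).mono hsub))
    (fun τ hτ => by
      have e1 := g.derivAt 0 (t := τ) ⟨hτ.1, hτ.2.trans ht.2⟩
      have e2 : HasDerivAt (fun τ : ℝ => a * τ) a τ := by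
        simpa using (hasDerivAt_id τ).const_mul a
      have e3 : HasDerivAt (Gd.I L x 1) (L 1 * |x 1 τ|) τ :=
        Pr_deriv (g.cabs 1) ⟨hτ.1, hτ.2.trans ht.2⟩
      exact (e1.fun_add e2).fun_add (e3.const_mul b))
    (fun τ hτ => by
      have hτ' : τ ∈ Ico 0 T := ⟨hτ.1.le, hτ.2.trans ht.2⟩
      have hτI : τ ∈ Icc 0 t := ⟨hτ.1.le, hτ.2.le⟩
      have h4 := g.vf_ge hτ' 0
      have h5 : src L C x 0 τ = 0 := by simp [src]
      have h6 : U L x 0 τ = 0 := by simp [U]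
      rw [h5, h6] at h4
      simp only [zero_add] at h4
      have h7 := g.abs_le_one hτ' 0
      have h8 := g.abs_le_one hτ' 1
      have h10 : |x 1 τ| ≤ hh 0 := (g.abs_le_sqrt hτ' (le_refl 1)).trans (h1 τ hτI)
      have h11 := g.Y_succ hτ' 1
      have h12 : Y x 2 τ ≤ eta lm 1 ^ 2 := Y2le g hτ'
        (le_trans (by gcongr; exact hτ.2.le) h2)
        ((g.I_mono 1 hτ'.1 hτ.2.le ht.2).trans h3)
      have h13 : x 1 τ ^ 2 ≤ hh 0 * |x 1 τ| := by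
        rw [← sq_abs, sq]
        have := abs_nonneg (x 1 τ)
        gcongr
      have h14 : Y x 1 τ ≤ hh 0 * |x 1 τ| + eta lm 1 ^ 2 := by
        rw [h11]
        have : (1 : ℕ) + 1 = 2 := rfl
        rw [this]
        linarith
      have h15 : (ℓ 0 + C 0 * L 0 * |x 1 τ| + 1001 / 1000 * 0 + ph lm 0) * |x 0 τ|
          ≤ (ℓ 0 + C 0 * L 0 * 1 + 1001 / 1000 * 0 + ph lm 0) * 1 := by
        have := q.ℓ_nonneg 0
        gcongr
      have h16 : 1001 / 1000 * L 0 * Y x 1 τ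
          ≤ 1001 / 1000 * L 0 * (hh 0 * |x 1 τ| + eta lm 1 ^ 2) := by gcongr
      have h17 : b * (L 1 * |x 1 τ|) = 1001 / 1000 * L 0 * (hh 0 * |x 1 τ|) := by
        rw [hb, ← hs1]
        field_simp
      have h18 : 0 ≤ L 0 * eta lm 1 ^ 2 := by positivity
      show 0 ≤ (vf3 L C ℓ B (fun m => x m τ) 0 + f 0 τ) + a + b * (L 1 * |x 1 τ|)
      rw [h17, ha]
      linarith)
  have hI0 : Gd.I L x 1 0 = 0 := by simp [Gd.I]
  simp only [hI0, mul_zero, add_zero, g.h0] at hm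
  have hbI : b * Gd.I L x 1 t ≤ 1001 / 1000 * 5 * hh 0 ^ 2 := by
    calc b * Gd.I L x 1 t ≤ b * (5 * hh 0 * lm 1) := by
          have : 0 ≤ b := by positivity
          gcongr
      _ = 1001 / 1000 * 5 * hh 0 ^ 2 := by rw [hb]; field_simp
  have ht0 := ht.1
  have hn0 := num0 q
  have hnz := (numz q).2.2.2
  have a1 : ℓ 0 * t ≤ 2 * hh 0 ^ 2 := by
    have h4 := q.ℓ_zero
    have h5 := q.ℓ_nonneg 0
    have h6 : L 0 * (ℓ 0 * t) ≤ L 0 * (2 * hh 0 ^ 2) := by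
      calc L 0 * (ℓ 0 * t) = ℓ 0 * (L 0 * t) := by ring
        _ ≤ ℓ 0 * (2 * lm 0) := by gcongr
        _ = 2 * (ℓ 0 * lm 0) := by ring
        _ ≤ 2 * (hh 0 ^ 2 * L 0) := by gcongr
        _ = _ := by ring
    exact le_of_mul_le_mul_left h6 hL
  have a2 : C 0 * L 0 * t ≤ 2 * (hh 0 ^ 2 / 10 ^ 20) := by
    have h4 : C 0 ≤ Real.exp (-(lm 0)) := by
      refine (C_hi' q 0).trans (Real.exp_le_exp.2 ?_)
      linarith
    calc C 0 * L 0 * t = C 0 * (L 0 * t) := by ring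
      _ ≤ Real.exp (-(lm 0)) * (2 * lm 0) := by gcongr
      _ = 2 * (Real.exp (-(lm 0)) * lm 0) := by ring
      _ ≤ _ := by gcongr
  have htl : t ≤ 2 * lm 0 := (coreA g ht h2 h3).2.2.1
  have a3 : 2 * ph lm 0 * t ≤ 4 * (hh 0 ^ 2 / 10 ^ 20) := by
    calc 2 * ph lm 0 * t ≤ 2 * ph lm 0 * (2 * lm 0) := by gcongr
      _ = 4 * (Real.exp (-(lm 0)) * lm 0) := by rw [ph]; ring
      _ ≤ _ := by gcongr
  have a4 : 2 * L 0 * eta lm 1 ^ 2 * t ≤ 4 * (hh 0 ^ 2 / 10 ^ 20) := by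
    calc 2 * L 0 * eta lm 1 ^ 2 * t = 2 * eta lm 1 ^ 2 * (L 0 * t) := by ring
      _ ≤ 2 * Real.exp (-(lm 0)) * (2 * lm 0) := by gcongr
      _ = 4 * (Real.exp (-(lm 0)) * lm 0) := by ring
      _ ≤ _ := by gcongr
  have a5 : a * t ≤ 3 * hh 0 ^ 2 := by
    have h6 : 0 < hh 0 ^ 2 := by positivity
    calc a * t = ℓ 0 * t + C 0 * L 0 * t + 2 * ph lm 0 * t + 2 * L 0 * eta lm 1 ^ 2 * t := by
          rw [ha]; ring
      _ ≤ 2 * hh 0 ^ 2 + 2 * (hh 0 ^ 2 / 10 ^ 20) + 4 * (hh 0 ^ 2 / 10 ^ 20)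
          + 4 * (hh 0 ^ 2 / 10 ^ 20) := by gcongr
      _ ≤ 3 * hh 0 ^ 2 := by linarith
  have a6 : 9 * hh 0 ^ 2 ≤ hh 0 / 100 := by nlinarith
  have a7 : 0 < hh 0 ^ 2 := by positivity
  linarith

/-- the equation of the mode `1` -/
lemma coreD (hE : S_ERR) (hN : S_NEG) (g : Gd lm L C ℓ M hh B T x f) {t : ℝ} (ht : t ∈ Ico 0 T)
    (h1 : ∀ s ∈ Icc 0 t, √(Y x 1 s) ≤ hh 0)
    (h2 : L 0 * t ≤ 2 * lm 0) (h3 : Gd.I L x 1 t ≤ 5 * hh 0 * lm 1) :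
    (∀ s ∈ Icc 0 t, -Real.exp (-(1 / 2) * lm 1) ≤ x 1 s) ∧
    ∀ τ ∈ Icc 0 t, 9 / 10 * (L 0 * |x 1 τ|) + 1 / 2 * (L 0 * C 0)
      ≤ vf3 L C ℓ B (fun m => x m τ) 1 + f 1 τ := by
  have q := g.sq
  have hL := sLp q 0
  have hL0 := q.L0
  have h9 := hh9 q 0
  have hp := q.hh_pos 0
  have hC := sCp q 0
  have hl0 := slm q 0
  have hA := coreA g ht h2 h3
  have hres : ∀ s ∈ Icc 0 t, s ∈ Ico 0 T ∧ (∀ s' ∈ Icc 0 s, √(Y x 1 s') ≤ hh 0) ∧
      L 0 * s ≤ 2 * lm 0 ∧ Gd.I L x 1 s ≤ 5 * hh 0 * lm 1 := fun s hs =>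
    ⟨⟨hs.1, hs.2.trans_lt ht.2⟩, fun s' hs' => h1 s' ⟨hs'.1, hs'.2.trans hs.2⟩,
      le_trans (by gcongr; exact hs.2) h2, (g.I_mono 1 hs.1 hs.2 ht.2).trans h3⟩
  have hneg : ∀ s ∈ Icc 0 t, -Real.exp (-(1 / 2) * lm 1) ≤ x 1 s := by
    have := hN lm L C ℓ M hh B T x f g 0 t ht (by linarith [hA.2.2.1])
      (by rw [zero_add, Finset.sum_range_one]; exact hA.2.1)
      (fun s hs => by
        obtain ⟨r1, r2, r3, r4⟩ := hres s hs
        exact (coreA g r1 r3 r4).2.2.2)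
    exact this
  refine ⟨hneg, fun τ hτ => ?_⟩
  obtain ⟨r1, r2, r3, r4⟩ := hres τ hτ
  have hb := coreB g r1 r2 r3 r4
  have hY := Y2le g r1 r3 r4
  have hx0 := g.abs_le_one r1 0
  have hX1 : x 0 τ ≤ 1 := (le_abs_self _).trans hx0
  have hn := hneg τ hτ
  have e := (hE lm L C ℓ M hh B T x f g τ r1).2.2 0
  simp only [zero_add] at e
  have e' := neg_le_of_abs_le e
  obtain ⟨z1, z2, z3, z4⟩ := numz q
  have zC := numC q
  set z := Real.exp (-50 * lm 0) with hz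
  set z0 := Real.exp (-(1 / 2) * lm 1) with hz0
  have hz0p : 0 < z0 := Real.exp_pos _
  have hX0 : 0 ≤ x 0 τ := by linarith
  have c1 : x 0 τ * |x 1 τ| - 2 * z0 ≤ x 0 τ * x 1 τ := by
    rcases le_or_gt 0 (x 1 τ) with h | h
    · rw [abs_of_nonneg h]; linarith
    · rw [abs_of_neg h]
      nlinarith
  have c2 : L 0 * (x 0 τ * |x 1 τ| - 2 * z0) ≤ L 0 * (x 0 τ * x 1 τ) := by gcongr
  have c3 : 98 / 100 * (L 0 * C 0) ≤ L 0 * C 0 * x 0 τ ^ 2 := by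
    have : 98 / 100 ≤ x 0 τ ^ 2 := by nlinarith
    have h' : 0 < L 0 * C 0 := by positivity
    nlinarith
  have c4 : hh 0 ^ 4 ≤ 1 / 100 := by
    calc hh 0 ^ 4 ≤ (1 / 10 ^ 9) ^ 4 := by gcongr
      _ ≤ 1 / 100 := by norm_num
  have c5 : 92 / 100 * (L 0 * |x 1 τ|) + 2 * hh 0 ^ 4 * L 0 * |x 1 τ| ≤ L 0 * (x 0 τ * |x 1 τ|) := by
    have h' : 0 ≤ L 0 * |x 1 τ| := by positivity
    have h'' : 92 / 100 + 2 * hh 0 ^ 4 ≤ x 0 τ := by linarith
    calc 92 / 100 * (L 0 * |x 1 τ|) + 2 * hh 0 ^ 4 * L 0 * |x 1 τ|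
        = (92 / 100 + 2 * hh 0 ^ 4) * (L 0 * |x 1 τ|) := by ring
      _ ≤ x 0 τ * (L 0 * |x 1 τ|) := by gcongr
      _ = _ := by ring
  have hL1 := sLp q 1
  have c6 : 2 * L 1 * Y x 2 τ ≤ 2 * z := by
    calc 2 * L 1 * Y x 2 τ ≤ 2 * L 1 * eta lm 1 ^ 2 := by gcongr
      _ = 2 * (L 1 * eta lm 1 ^ 2) := by ring
      _ ≤ 2 * z := by gcongr
  have c7 : L 0 * z0 ≤ L 0 * C 0 / 1000 := by
    calc L 0 * z0 ≤ L 0 * (C 0 / 1000) := by
          gcongr; exact z1.trans zC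
      _ = _ := by ring
  have c8 : z ≤ L 0 * C 0 / 1000 := by
    calc z ≤ 1 * (C 0 / 1000) := by rw [one_mul]; exact zC
      _ ≤ L 0 * (C 0 / 1000) := by gcongr
      _ = _ := by ring
  have c9 : 0 ≤ L 0 * |x 1 τ| := by positivity
  have c10 : 0 < L 0 * C 0 := by positivity
  have e1 : L 0 * x 0 τ * x 1 τ = L 0 * (x 0 τ * x 1 τ) := by ring
  rw [e1] at e'
  have c2' : L 0 * (x 0 τ * |x 1 τ|) - 2 * (L 0 * z0) ≤ L 0 * (x 0 τ * x 1 τ) := by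
    have : L 0 * (x 0 τ * |x 1 τ| - 2 * z0) = L 0 * (x 0 τ * |x 1 τ|) - 2 * (L 0 * z0) := by ring
    linarith
  linarith

/-- the integral of the mode `1` and the duration -/
lemma coreE (hE : S_ERR) (hN : S_NEG) (g : Gd lm L C ℓ M hh B T x f) {t : ℝ} (ht : t ∈ Ico 0 T)
    (h1 : ∀ s ∈ Icc 0 t, √(Y x 1 s) ≤ hh 0)
    (h2 : L 0 * t ≤ 2 * lm 0) (h3 : Gd.I L x 1 t ≤ 5 * hh 0 * lm 1) :
    Gd.I L x 1 t ≤ 2 * hh 0 * lm 1 ∧ L 0 * t < 2 * lm 0 := by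
  have q := g.sq
  have hL := sLp q 0
  have hL1 := sLp q 1
  have hp := q.hh_pos 0
  have hC := sCp q 0
  have hl0 := slm q 0
  have hl1 := slm q 1
  have hs1 := q.lm_succ 0
  simp only [zero_add] at hs1
  obtain ⟨_, hD⟩ := coreD hE hN g ht h1 h2 h3
  have hsub : ∀ τ ∈ Icc 0 t, τ ∈ Ico 0 T := fun τ hτ => ⟨hτ.1, hτ.2.trans_lt ht.2⟩
  have hx10 : x 1 0 = 0 := g.hn 0
  have hI0 : Gd.I L x 1 0 = 0 := by simp [Gd.I]
  have hLC : 0 < L 0 * C 0 := by positivity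
  constructor
  · have hm := mono_of (f := fun τ => lm 1 * x 1 τ - 9 / 10 * Gd.I L x 1 τ)
      (f' := fun τ => lm 1 * (vf3 L C ℓ B (fun m => x m τ) 1 + f 1 τ) - 9 / 10 * (L 1 * |x 1 τ|))
      (a := 0) (b := t) ht.1
      (by
        refine ContinuousOn.sub (continuousOn_const.mul ((g.cont 1).mono hsub)) ?_
        exact continuousOn_const.mul ((Pr_cont (g.cabs 1)).mono hsub))
      (fun τ hτ => by
        have e1 := g.derivAt 1 (t := τ) ⟨hτ.1, hτ.2.trans ht.2⟩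
        have e3 : HasDerivAt (Gd.I L x 1) (L 1 * |x 1 τ|) τ :=
          Pr_deriv (g.cabs 1) ⟨hτ.1, hτ.2.trans ht.2⟩
        exact (e1.const_mul (lm 1)).fun_sub (e3.const_mul (9 / 10)))
      (fun τ hτ => by
        have h4 := hD τ ⟨hτ.1.le, hτ.2.le⟩
        have h5 : lm 1 * (9 / 10 * (L 0 * |x 1 τ|))
            ≤ lm 1 * (vf3 L C ℓ B (fun m => x m τ) 1 + f 1 τ) := by
          gcongr
          linarith
        show 0 ≤ lm 1 * (vf3 L C ℓ B (fun m => x m τ) 1 + f 1 τ) - 9 / 10 * (L 1 * |x 1 τ|)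
        rw [← hs1]
        linarith)
    simp only [hI0, hx10, mul_zero, sub_zero] at hm
    have h4 : x 1 t ≤ hh 0 := (le_abs_self _).trans
      ((g.abs_le_sqrt ht (le_refl 1)).trans (h1 t ⟨ht.1, le_rfl⟩))
    have h5 : lm 1 * x 1 t ≤ lm 1 * hh 0 := by gcongr
    have h6 : 0 < lm 1 * hh 0 := by positivity
    linarith
  · by_contra hcon
    push Not at hcon
    set k : ℝ := 5 / 9 * C 0 with hk
    have hm := mono_of (f := fun τ => Real.exp (-(9 / 10 * L 0 * τ)) * (x 1 τ + k))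
      (f' := fun τ => Real.exp (-(9 / 10 * L 0 * τ)) * (-(9 / 10 * L 0)) * (x 1 τ + k)
        + Real.exp (-(9 / 10 * L 0 * τ)) * (vf3 L C ℓ B (fun m => x m τ) 1 + f 1 τ))
      (a := 0) (b := t) ht.1
      (by
        refine ContinuousOn.mul (Continuous.continuousOn (by fun_prop)) ?_
        exact ((g.cont 1).mono hsub).add continuousOn_const)
      (fun τ hτ => by
        have e1 := g.derivAt 1 (t := τ) ⟨hτ.1, hτ.2.trans ht.2⟩
        have e2 : HasDerivAt (fun τ : ℝ => -(9 / 10 * L 0 * τ)) (-(9 / 10 * L 0)) τ := by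
          simpa using ((hasDerivAt_id τ).const_mul (9 / 10 * L 0)).fun_neg
        exact e2.exp.fun_mul (e1.add_const k))
      (fun τ hτ => by
        have h4 := hD τ ⟨hτ.1.le, hτ.2.le⟩
        have h5 : 9 / 10 * L 0 * (x 1 τ + k) ≤ vf3 L C ℓ B (fun m => x m τ) 1 + f 1 τ := by
          have h6 : L 0 * x 1 τ ≤ L 0 * |x 1 τ| := by
            gcongr; exact le_abs_self _
          rw [hk]
          linarith
        have h7 := Real.exp_pos (-(9 / 10 * L 0 * τ))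
        show 0 ≤ Real.exp (-(9 / 10 * L 0 * τ)) * (-(9 / 10 * L 0)) * (x 1 τ + k)
          + Real.exp (-(9 / 10 * L 0 * τ)) * (vf3 L C ℓ B (fun m => x m τ) 1 + f 1 τ)
        have h8 : Real.exp (-(9 / 10 * L 0 * τ)) * (9 / 10 * L 0 * (x 1 τ + k)) ≤
            Real.exp (-(9 / 10 * L 0 * τ)) * (vf3 L C ℓ B (fun m => x m τ) 1 + f 1 τ) := by gcongr
        linarith)
    simp only [hx10, mul_zero, neg_zero, Real.exp_zero, one_mul, zero_add] at hm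
    have h4 : x 1 t ≤ 1 := (le_abs_self _).trans (g.abs_le_one ht 1)
    have hC1 := sC1 q 0
    have h5 : Real.exp (-(9 / 10 * L 0 * t)) * (x 1 t + k) ≤ Real.exp (-(18 / 10 * lm 0)) * 2 := by
      have h6 : x 1 t + k ≤ 2 := by rw [hk]; linarith
      have h7 : Real.exp (-(9 / 10 * L 0 * t)) ≤ Real.exp (-(18 / 10 * lm 0)) :=
        Real.exp_le_exp.2 (by linarith)
      calc Real.exp (-(9 / 10 * L 0 * t)) * (x 1 t + k)
          ≤ Real.exp (-(9 / 10 * L 0 * t)) * 2 := by gcongr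
        _ ≤ _ := by gcongr
    have h8 := C_lo' q 0
    have h9 : Real.exp (-(158 / 100) * lm 0) = Real.exp (22 / 100 * lm 0)
        * Real.exp (-(18 / 10 * lm 0)) := by
      rw [← Real.exp_add]; congr 1; ring
    have h10 : 1000 ≤ Real.exp (22 / 100 * lm 0) := by
      have := Real.add_one_le_exp (22 / 100 * lm 0)
      have := q.lm_big 0
      linarith
    have h11 := Real.exp_pos (-(18 / 10 * lm 0))
    have h12 : 1000 * Real.exp (-(18 / 10 * lm 0)) ≤ Real.exp (-(158 / 100) * lm 0) := by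
      rw [h9]; gcongr
    rw [hk] at hm h5
    linarith

theorem t_BASE (hE : S_ERR) (hN : S_NEG) : S_BASE := by
  intro lm L C ℓ M hh B T x f g
  have q := g.sq
  have hL := sLp q 0
  have hL0 := q.L0
  have h9 := hh9 q 0
  have hp := q.hh_pos 0
  have hl0 := slm q 0
  have hl1 := slm q 1
  set F : ℝ → ℝ := fun s => max (√(Y x 1 s) - hh 0)
    (max (L 0 * s - 2 * lm 0) (Gd.I L x 1 s - 5 * hh 0 * lm 1)) with hF
  have hFc : ContinuousOn F (Ico 0 T) := by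
    refine ContinuousOn.sup ?_ (ContinuousOn.sup ?_ ?_)
    · exact ((g.Ycont 1).sqrt).sub continuousOn_const
    · exact Continuous.continuousOn (by fun_prop)
    · exact (Pr_cont (g.cabs 1)).sub continuousOn_const
  have hFle : ∀ s, F s ≤ 0 ↔ √(Y x 1 s) ≤ hh 0 ∧ L 0 * s ≤ 2 * lm 0 ∧
      Gd.I L x 1 s ≤ 5 * hh 0 * lm 1 := fun s => by
    simp only [hF, max_le_iff, sub_nonpos]
  have hY0 : Y x 1 0 = 0 := by
    rw [Y]
    have : ∀ j : ℕ, x (1 + j) 0 ^ 2 = 0 := fun j => by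
      rw [add_comm 1 j, g.hn]; simp
    simp [this]
  have hI0 : Gd.I L x 1 0 = 0 := by simp [Gd.I]
  have hF0 : F 0 < 0 := by
    simp only [hF, hY0, hI0, Real.sqrt_zero, mul_zero, zero_sub, max_lt_iff]
    refine ⟨by linarith, by linarith, ?_⟩
    have : 0 < 5 * hh 0 * lm 1 := by positivity
    linarith
  have use : ∀ t ∈ Ico 0 T, (∀ s ∈ Icc 0 t, F s ≤ 0) →
      (∀ s ∈ Icc 0 t, √(Y x 1 s) ≤ hh 0) ∧ L 0 * t ≤ 2 * lm 0 ∧
      Gd.I L x 1 t ≤ 5 * hh 0 * lm 1 := fun t ht h =>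
    ⟨fun s hs => ((hFle s).1 (h s hs)).1, ((hFle t).1 (h t ⟨ht.1, le_rfl⟩)).2⟩
  rcases first_time hFc hF0 with hc | ⟨t₁, ht₁, hz, hlt⟩
  · right
    have hg : ∀ t ∈ Ico 0 T, (∀ s ∈ Icc 0 t, F s ≤ 0) := fun t ht s hs =>
      (hc s ⟨hs.1, hs.2.trans_lt ht.2⟩).le
    constructor
    · by_contra hcon
      push Not at hcon
      have ht : 2 * lm 0 ∈ Ico 0 T := ⟨by linarith, hcon⟩
      obtain ⟨u1, u2, u3⟩ := use _ ht (hg _ ht)
      have h := (coreE hE hN g ht u1 u2 u3).2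
      nlinarith
    · intro t ht
      obtain ⟨u1, u2, u3⟩ := use _ ht (hg _ ht)
      exact (coreA g ht u2 u3).1
  · left
    have ht : t₁ ∈ Ico 0 T := ⟨ht₁.1.le, ht₁.2⟩
    have hg : ∀ s ∈ Icc 0 t₁, F s ≤ 0 := fun s hs => by
      rcases hs.2.eq_or_lt with h | h
      · rw [h, hz]
      · exact (hlt s ⟨hs.1, h⟩).le
    obtain ⟨u1, u2, u3⟩ := use _ ht hg
    obtain ⟨k1, k2⟩ := coreE hE hN g ht u1 u2 u3
    obtain ⟨a1, a2, a3, a4⟩ := coreA g ht u2 u3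
    have hthr : √(Y x 1 t₁) = hh 0 := by
      have h4 : 0 < hh 0 * lm 1 := by positivity
      have h5 : max (L 0 * t₁ - 2 * lm 0) (Gd.I L x 1 t₁ - 5 * hh 0 * lm 1) < 0 :=
        max_lt (by linarith) (by linarith)
      have h6 : max (√(Y x 1 t₁) - hh 0)
        (max (L 0 * t₁ - 2 * lm 0) (Gd.I L x 1 t₁ - 5 * hh 0 * lm 1)) = 0 := hz
      rcases max_choice (√(Y x 1 t₁) - hh 0)
        (max (L 0 * t₁ - 2 * lm 0) (Gd.I L x 1 t₁ - 5 * hh 0 * lm 1)) with h7 | h7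
      · rw [h7] at h6; linarith
      · rw [h7] at h6; linarith
    have hb := coreB g ht u1 u2 u3
    have hneg := (coreD hE hN g ht u1 u2 u3).1 t₁ ⟨ht.1, le_rfl⟩
    refine ⟨t₁, ⟨ht.1, ht.2, by linarith, by linarith, ?_, ?_, ?_, ?_, ?_⟩⟩
    · simpa using hthr
    · -- the mode 1
      simp only [zero_add]
      have hY1 := g.Y_succ ht 1
      have hY1' : Y x 1 t₁ = hh 0 ^ 2 := by
        rw [← hthr, Real.sq_sqrt (Gd.Y_nonneg 1 t₁)]
      have hY2 : Y x 2 t₁ ≤ eta lm 1 ^ 2 := Y2le g ht u2 u3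
      obtain ⟨z1, z2, z3, z4⟩ := numz q
      have hn0 := num0 q
      have hlm := q.lm_big 0
      have h1 : eta lm 1 ^ 2 ≤ hh 0 ^ 2 / 10 ^ 20 := by
        have h2 := Real.exp_pos (-(lm 0))
        calc eta lm 1 ^ 2 ≤ Real.exp (-(lm 0)) * 1 := by rw [mul_one]; exact z4
          _ ≤ Real.exp (-(lm 0)) * lm 0 := by gcongr; linarith
          _ ≤ _ := hn0
      have h2 : (99 / 100 * hh 0) ^ 2 ≤ x 1 t₁ ^ 2 := by
        have e : (1 : ℕ) + 1 = 2 := rfl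
        rw [e] at hY1
        have h6 : 0 < hh 0 ^ 2 := by positivity
        have e2 : (99 / 100 * hh 0) ^ 2 = 9801 / 10000 * hh 0 ^ 2 := by ring
        rw [e2]
        linarith
      have h3 : 99 / 100 * hh 0 ≤ |x 1 t₁| := by
        have := sq_le_sq.1 h2
        rwa [abs_of_pos (by positivity : 0 < 99 / 100 * hh 0)] at this
      have h4 : Real.exp (-(1 / 2) * lm 1) ≤ hh 0 / 10 := by
        have h5 : Real.exp (-50 * lm 0) ≤ Real.exp (-(lm 0)) := Real.exp_le_exp.2 (by linarith)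
        have h6 : Real.exp (-(lm 0)) ≤ Real.exp (-(lm 0)) * lm 0 := by
          have := Real.exp_pos (-(lm 0))
          nlinarith
        have h7 : hh 0 ^ 2 / 10 ^ 20 ≤ hh 0 / 10 := by nlinarith
        linarith
      rcases le_or_gt 0 (x 1 t₁) with h | h
      · rwa [abs_of_nonneg h] at h3
      · rw [abs_of_neg h] at h3
        linarith
    · rw [zero_add, Finset.sum_range_one]; exact a2
    · simp only [zero_add]
      have : 0 < hh 0 * lm 1 := by positivity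
      linarith
    · rw [pow_zero]
      linarith

end Pool.Agent.Y387.EJ
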